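import Pool.Agent.Q318.CO.AutFin
import Pool.Agent.Q318.CO.Gap

set_option autoImplicit false

/-!
# Large differences `√p' - √p` around all the coordinates of orbits of polynomial automorphisms

Let `Φ_k` be finitely many automorphisms of the ring `ℤ[X_1, …, X_d]`, seen as polynomial automorphisms of `ℤ^d` (for
example the first `N` iterates of a Hénon map `(x, y) ↦ (y, y² + c - x)`, of Nagata's automorphism, or of all products of
`N` elements of a finite set of automorphisms). Let `f (Z) = log Z (log₂ Z)² log₄ Z / (log₃ Z)²` be the size of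
the record of the starting library for gaps between primes up to `Z`. There is `c > 0` such that for all large `Z` every box
of side `Z`, anywhere in `ℤ^d`, contains a point `x` such that ALL the coordinates `v` of ALL the points `Φ_k(x)` are at the
same time in the middle of record gaps: every integer at distance at most `c f(Z)` of `v` has a prime factor
`≤ Z ^ (1/10)`; if `v > Z`, the primes `p < v < p'` next to `v` satisfy `√p' - √p ≥ c f(Z) / √v`.

Proof. The covering criterion for polynomials of the starting library (`Pool.Agent.Y837.SV.crit3`) asks for the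
equidistribution of every polynomial modulo the primes, which is clear for a coordinate of an automorphism, and for the
bound `O(p^(d-2))` for the number of the solutions of `F = r, G = s` modulo `p` for two of the polynomials. If this fails
for arbitrarily large `p`, then (transport by one of the automorphisms, irreducibility of the coordinates of the
reductions modulo `p`) `G = ± F + b`, and then `G` is treated together with `F`.
-/

namespace Pool.Agent.Results.MP_3998cf_nt.PolynomialAutomorphisms

open MvPolynomial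

/-- the record scale of the gaps between primes -/
noncomputable def scale (x : ℝ) : ℝ :=
  Real.log x * (Real.log (Real.log x)) ^ 2 * Real.log (Real.log (Real.log (Real.log x))) /
    (Real.log (Real.log (Real.log x))) ^ 2

/-- the difference of the square roots of the primes number `n` and `n + 1` (counted from `0`) -/
noncomputable def diff (n : ℕ) : ℝ := √(Nat.nth Nat.Prime (n + 1) : ℝ) - √(Nat.nth Nat.Prime n : ℝ)

/-- the `i`-th coordinate of the image of `x` under the polynomial automorphism `Φ` -/
noncomputable def coord {d : ℕ} (Φ : MvPolynomial (Fin d) ℤ ≃ₐ[ℤ] MvPolynomial (Fin d) ℤ) (x : Fin d → ℤ)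
    (i : Fin d) : ℤ := eval x (Φ (X i))

/-- **Polynomial automorphisms and differences of square roots of consecutive primes.** -/
theorem result (d : ℕ) (ι : Type) [Fintype ι] (Φ : ι → MvPolynomial (Fin d) ℤ ≃ₐ[ℤ] MvPolynomial (Fin d) ℤ) :
    ∃ c : ℝ, 0 < c ∧ ∃ Z₀ : ℕ, ∀ Z : ℕ, Z₀ ≤ Z → ∀ M : Fin d → ℤ, ∃ x : Fin d → ℤ,
      (∀ i, M i < x i ∧ x i ≤ M i + Z) ∧ ∀ k i,
        (∀ n : ℤ, |(n : ℝ) - coord (Φ k) x i| ≤ c * scale Z →
          ∃ p : ℕ, p.Prime ∧ (p : ℝ) ≤ (Z : ℝ) ^ (1 / 10 : ℝ) ∧ (p : ℤ) ∣ n) ∧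
        ((Z : ℤ) < coord (Φ k) x i → ∃ n : ℕ, (Nat.nth Nat.Prime n : ℤ) < coord (Φ k) x i ∧
          coord (Φ k) x i < Nat.nth Nat.Prime (n + 1) ∧ c * scale Z / √(coord (Φ k) x i : ℝ) ≤ diff n) := by
  obtain ⟨c, hc, Z₀, h⟩ := Pool.Agent.Q318.CO.aut_main d Φ
  obtain ⟨Z₁, hZ₁⟩ := Pool.Agent.Q318.CO.ff_large 0
  refine ⟨c / 2, by positivity, max (max ⌈Z₀⌉₊ ⌈Z₁⌉₊) 100, fun Z hZ M => ?_⟩
  have hZa : Z₀ ≤ Z := (Nat.le_ceil _).trans (by exact_mod_cast (le_max_left _ _).trans ((le_max_left _ _).trans hZ))
  have hZb : Z₁ ≤ Z := (Nat.le_ceil _).trans (by exact_mod_cast (le_max_right _ _).trans ((le_max_left _ _).trans hZ))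
  have hZc : 100 ≤ Z := (le_max_right _ _).trans hZ
  have hf0 : 0 ≤ scale Z := hZ₁ Z hZb
  obtain ⟨x, hx1, hx2⟩ := h Z hZa M
  refine ⟨x, hx1, fun k i => ⟨fun n hn => hx2 k i n ?_, fun hv => ?_⟩⟩
  · refine hn.trans ?_
    change c / 2 * scale Z ≤ c * scale Z
    nlinarith
  · obtain ⟨n, h1, h2, h3⟩ := Pool.Agent.Q318.CO.sqrt_gap Z hZc (c * scale Z) (by positivity) (coord (Φ k) x i) hv
      (fun n hn => hx2 k i n hn)
    refine ⟨n, h1, h2, ?_⟩
    unfold diff
    calc c / 2 * scale Z / √(coord (Φ k) x i : ℝ) = c * scale Z / 2 / √(coord (Φ k) x i : ℝ) := by ring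
      _ ≤ _ := h3

end Pool.Agent.Results.MP_3998cf_nt.PolynomialAutomorphisms
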