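import Pool.Agent.Q48.RD.Pat

/-!
# Square roots of isolated almost prime tuples with restricted digits in short intervals

Let `h 1, …, h k` be different nonnegative integers which do not cover all residue classes modulo any prime (for example `k = 1`,
`h 1 = 0`, or `0, 2`, or `0, 2, 6`), and let `L` be arbitrary. We consider the `m` for which `m + h 1, …, m + h k` are almost primes and no
other integer at distance at most `L` from `m` is a prime.

Let `g ≥ 2` be a base and `K` a large number of digits. For every `i < K` let `A i` be an arbitrary set of digits, such that the number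
`|A 0| ⋯ |A (K - 1)|` of the integers `t < g ^ K` whose `i`-th digit belongs to `A i` for all `i < K` is at least `exp (- c K) g ^ K`
(`Rich`). Let `y` be a real number with `L + 1 ≤ y ^ 2 ≤ g ^ (E K)`, `y ≥ 1`, and let `N` be the least integer with `y ^ 2 ≤ N`.

For at least `κ |A 0| ⋯ |A (K - 1)| / K ^ k` of the `m = N + t` with these `t` the `m + h j` have at most `r` prime factors, all larger
than `g ^ (K / r)`, their square roots are between `y` and `y + g ^ K / y`, and no other integer at distance at most `L` from `m` is a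
prime, unless there is an obvious obstruction (no digit `d` in `A 0` such that all `N + d + h j` are prime to `g`); and for at most
`C |A 0| ⋯ |A (K - 1)| / K ^ k` of them all `m + h j` are primes. The constants do not depend on `y` and on the sets `A i`.

Here `g ^ K` may be an arbitrarily small power of `y`. So the differences of the square roots of consecutive elements of the set of these
`m` tend to `0`, and they are `O (y ^ (- 1 + ε))` at `y`, for all patterns and for sparse sets of digits.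
-/

set_option autoImplicit false

namespace Pool.Agent.Results.MP_3998cf_nt.SquareRootsOfTuples

open Filter Finset
open Pool.Agent.Q315.RD Pool.Agent.Q48.RD

lemma sqrt_bounds {y G : ℝ} {x : ℕ} (hy : 1 ≤ y) (hG : 0 ≤ G) (h1 : y ^ 2 ≤ x) (h2 : (x : ℝ) ≤ y ^ 2 + 2 * G) :
    y ≤ √(x : ℝ) ∧ √(x : ℝ) ≤ y + G / y := by
  have hy0 : 0 < y := by linarith
  constructor
  · exact Real.le_sqrt_of_sq_le h1
  · rw [Real.sqrt_le_left (by positivity)]
    refine h2.trans ?_
    have h3 : (y + G / y) ^ 2 = y ^ 2 + 2 * G + (G / y) ^ 2 := by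
      field_simp
      ring
    rw [h3]
    nlinarith [sq_nonneg (G / y)]

/-- **Square roots of isolated almost prime tuples with restricted digits in short intervals.** -/
theorem result {k : ℕ} (h : Fin k → ℕ) (hinj : Function.Injective h) (hadm : ∀ p : ℕ, p.Prime → ∃ n : ℕ, ∀ j, ¬ p ∣ n + h j)
    (L E : ℕ) :
    ∃ c : ℝ, 0 < c ∧ ∃ r₀ : ℕ, 2 ≤ r₀ ∧ ∀ r : ℕ, r₀ ≤ r → ∀ g : ℕ, 2 ≤ g → ∃ κ C : ℝ, 0 < κ ∧ 0 < C ∧
      ∀ᶠ K : ℕ in atTop, ∀ y : ℝ, 1 ≤ y → L + 1 ≤ y ^ 2 → y ^ 2 ≤ (g : ℝ) ^ (E * K) → ∀ A : ℕ → Finset ℕ, Rich c g K A →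
        ((∃ d ∈ A 0, ∀ j, (⌈y ^ 2⌉₊ + d + h j).Coprime g) →
          κ * choices K A / (K : ℝ) ^ k ≤ count g K A fun t => (∀ j, AlmostPrime (g ^ K) r (⌈y ^ 2⌉₊ + t + h j) ∧
              y ≤ √((⌈y ^ 2⌉₊ + t + h j : ℕ) : ℝ) ∧ √((⌈y ^ 2⌉₊ + t + h j : ℕ) : ℝ) ≤ y + (g : ℝ) ^ K / y) ∧
            ∀ n : ℕ, ⌈y ^ 2⌉₊ + t ≤ n + L → n ≤ ⌈y ^ 2⌉₊ + t + L → (∀ j, n ≠ ⌈y ^ 2⌉₊ + t + h j) → ¬ n.Prime) ∧
        (count g K A (fun t => ∀ j, (⌈y ^ 2⌉₊ + t + h j).Prime) : ℝ) ≤ C * choices K A / (K : ℝ) ^ k := by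
  classical
  obtain ⟨c, hc, r₀, hr₀, h1⟩ := pattern h hinj hadm L E
  refine ⟨c, hc, r₀, hr₀, fun r hr g hg => ?_⟩
  obtain ⟨κ, C, hκ, hC, h2⟩ := h1 r hr g hg
  refine ⟨κ, C, hκ, hC, ?_⟩
  obtain ⟨H, hH⟩ : ∃ H, ∀ j, h j ≤ H := ⟨∑ j, h j, fun j => single_le_sum (f := h) (fun _ _ => Nat.zero_le _) (mem_univ j)⟩
  filter_upwards [h2, eventually_ge_atTop (H + 1)] with K hK hKH
  intro y hy hyL hyE A hA
  have hKg : K < g ^ K := Nat.lt_pow_self (by omega)
  have hN : ⌈y ^ 2⌉₊ ≤ g ^ (E * K) := by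
    rw [Nat.ceil_le]
    push_cast
    exact hyE
  have hLN : L ≤ ⌈y ^ 2⌉₊ := by
    have h3 : ((L : ℕ) : ℝ) ≤ ⌈y ^ 2⌉₊ := le_trans (by linarith) (Nat.le_ceil (y ^ 2))
    exact_mod_cast h3
  obtain ⟨e1, e2⟩ := hK ⌈y ^ 2⌉₊ hLN hN A hA
  refine ⟨fun hd => (e1 hd).trans (Nat.cast_le.2 (count_mono fun t ht hP => ?_)), e2⟩
  refine ⟨fun j => ⟨hP.1 j, sqrt_bounds hy (by positivity) ?_ ?_⟩, hP.2⟩
  · push_cast
    have h3 := Nat.le_ceil (y ^ 2)
    have h4 : (0 : ℝ) ≤ (t : ℝ) + h j := by positivity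
    linarith
  · have h3 : (⌈y ^ 2⌉₊ : ℝ) < y ^ 2 + 1 := Nat.ceil_lt_add_one (by positivity)
    have h4 : (t : ℝ) + 1 ≤ (g : ℝ) ^ K := by exact_mod_cast ht
    have h5 : (h j : ℝ) ≤ (g : ℝ) ^ K := by
      have : h j ≤ g ^ K := (hH j).trans (by omega)
      exact_mod_cast this
    push_cast
    linarith

end Pool.Agent.Results.MP_3998cf_nt.SquareRootsOfTuples
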