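import Pool.Agent.Q25.UReg6

/-!
# Square roots of almost primes near `s` arbitrary points at once: the laws

Let `s ≥ 2`, `0 < η ≤ E`, `0 < θ`.  For EVERY large `X` and ALL real numbers `y_1, ..., y_s` in `[1, X ^ E]` whose squares
have mutual distances `≥ X ^ η` let `N_i` be the least multiple of `s!` not below `y_i ^ 2`, and call `m` good if none of the
`s` numbers `N_i + m` has a prime factor `≤ X ^ (1/r)`; the square root of `N_i + m` lies between `y_i` and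
`y_i + (m + s!) / (2 y_i)`.  In ALL intervals of length at least `X ^ θ` the numbers of the good `m` in windows follow the
Poisson law and the gaps between the good `m` are exponentially distributed, and almost all elements of an ARBITRARY set
of good `m` (for instance of the `m` for which all `N_i + m` are prime) are regular points of this set.
-/

set_option autoImplicit false

namespace Pool.Agent.Results.MP_3998cf_nt.UniformLaws

open Finset
open Pool.Agent.Q25.UReg (Good V count pois PoissonLaw GapLaw N RightOrder ConstantDensity badScales Irregular)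

/-- the least multiple of `s!` which is not below `y ^ 2` -/
noncomputable def M (s : ℕ) (y : ℝ) : ℕ := s.factorial * ⌈y ^ 2 / s.factorial⌉₊

/-- the coefficients of `m` in `N_i + m` -/
def co (s : ℕ) (_ : Fin s) : ℤ := 1

/-- the constant terms `N_i` -/
noncomputable def ct {s : ℕ} (y : Fin s → ℝ) (i : Fin s) : ℤ := M s (y i)

lemma le_M (s : ℕ) (y : ℝ) : y ^ 2 ≤ M s y := by
  have h : (0 : ℝ) < s.factorial := by exact_mod_cast Nat.factorial_pos s
  unfold M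
  push_cast
  have h1 := Nat.le_ceil (y ^ 2 / s.factorial)
  calc y ^ 2 = s.factorial * (y ^ 2 / s.factorial) := by field_simp
    _ ≤ _ := mul_le_mul_of_nonneg_left h1 h.le

lemma M_le (s : ℕ) (y : ℝ) : (M s y : ℝ) ≤ y ^ 2 + s.factorial := by
  have h : (0 : ℝ) < s.factorial := by exact_mod_cast Nat.factorial_pos s
  unfold M
  push_cast
  have h1 := (Nat.ceil_lt_add_one (by positivity : 0 ≤ y ^ 2 / s.factorial)).le
  calc (s.factorial : ℝ) * ⌈y ^ 2 / s.factorial⌉₊ ≤ s.factorial * (y ^ 2 / s.factorial + 1) :=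
        mul_le_mul_of_nonneg_left h1 h.le
    _ = y ^ 2 + s.factorial := by field_simp

/-- the square root of `N_i + m` is close to `y_i` -/
lemma sqrt_near (s m : ℕ) (y : ℝ) (hy : 1 ≤ y) :
    y ≤ Real.sqrt ((M s y + m : ℕ) : ℝ) ∧ Real.sqrt ((M s y + m : ℕ) : ℝ) ≤ y + (m + s.factorial) / (2 * y) := by
  have h1 := le_M s y
  have h2 := M_le s y
  have hm : (0 : ℝ) ≤ m := by positivity
  have hf : (0 : ℝ) ≤ s.factorial := by positivity
  constructor
  · apply Real.le_sqrt_of_sq_le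
    push_cast
    linarith
  · apply Real.sqrt_le_iff.2
    refine ⟨by positivity, ?_⟩
    push_cast
    have e : (y + (m + s.factorial) / (2 * y)) ^ 2 =
        y ^ 2 + (m + s.factorial) + ((m + s.factorial) / (2 * y)) ^ 2 := by
      field_simp
      ring
    rw [e]
    have := sq_nonneg (((m : ℝ) + s.factorial) / (2 * y))
    linarith

lemma adm {s : ℕ} (y : Fin s → ℝ) (p : ℕ) (hp : p.Prime) : ∃ m : ℤ, ∀ i, ¬ (p : ℤ) ∣ co s i * m + ct y i := by
  rcases lt_or_ge s p with h2 | h2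
  · apply Pool.Agent.Q25.UReg.adm_small (co s) (ct y) p hp h2
    intro i h
    have h1 := h.1
    unfold co at h1
    exact hp.one_lt.ne' (Nat.dvd_one.1 (by exact_mod_cast h1))
  · refine ⟨1, fun i h => ?_⟩
    have h3 : (p : ℤ) ∣ ct y i := by
      unfold ct M
      exact_mod_cast (Nat.dvd_factorial hp.pos h2).mul_right _
    have h4 : (p : ℤ) ∣ 1 := by
      have := dvd_sub h h3
      unfold co at this
      rwa [add_sub_cancel_right, mul_one] at this
    exact hp.one_lt.ne' (Nat.dvd_one.1 (by exact_mod_cast h4))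

/-- the constants are far apart -/
lemma far {s : ℕ} (y : Fin s → ℝ) {U W : ℝ} (hUW : U + s.factorial < W)
    (hy : ∀ i j, i ≠ j → W ≤ |y i ^ 2 - y j ^ 2|) {i j : Fin s} (hij : i ≠ j) :
    U < |(ct y i : ℝ) - (ct y j : ℝ)| := by
  have h1 := hy i j hij
  have h2 := le_M s (y i)
  have h3 := M_le s (y i)
  have h4 := le_M s (y j)
  have h5 := M_le s (y j)
  unfold ct
  push_cast
  rcases abs_cases (y i ^ 2 - y j ^ 2) with ⟨h6, h7⟩ | ⟨h6, h7⟩
  · rw [h6] at h1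
    refine lt_of_lt_of_le ?_ (le_abs_self _)
    linarith
  · rw [h6] at h1
    refine lt_of_lt_of_le ?_ (neg_le_abs _)
    linarith

lemma two {s : ℕ} (hs : 2 ≤ s) (y : Fin s → ℝ) {W : ℝ} (hW : s.factorial < W)
    (hy : ∀ i j, i ≠ j → W ≤ |y i ^ 2 - y j ^ 2|) : Pool.Agent.Q25.UReg.TwoForms (co s) (ct y) := by
  refine ⟨⟨0, by omega⟩, ⟨1, by omega⟩, ?_, ?_⟩
  · rintro ⟨-, h⟩
    have hne : (⟨0, by omega⟩ : Fin s) ≠ ⟨1, by omega⟩ := fun h => by simp at h
    have := far y (U := 0) (by linarith) hy hne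
    rw [h, sub_self, abs_zero] at this
    exact lt_irrefl _ this
  · rintro ⟨h, -⟩
    unfold co at h
    norm_num at h

lemma noTr {s : ℕ} (y : Fin s → ℝ) {U W : ℝ} (hUW : U + s.factorial < W)
    (hy : ∀ i j, i ≠ j → W ≤ |y i ^ 2 - y j ^ 2|) : Pool.Agent.Q25.UReg.NoTranslates2 (co s) (ct y) U := by
  intro i j t ht htU
  have ht' : (1 : ℤ) ≤ t := by exact_mod_cast ht
  refine ⟨fun h => ?_, fun h => ?_⟩
  · have h2 := h.2
    unfold co at h2
    rw [one_mul] at h2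
    rcases eq_or_ne i j with h3 | h3
    · subst h3
      omega
    · have h4 := far y hUW hy h3
      have h5 : (ct y i : ℝ) - (ct y j : ℝ) = t := by
        rw [h2]
        push_cast
        ring
      rw [h5, abs_of_nonneg (by positivity)] at h4
      linarith
  · have := h.1
    unfold co at this
    omega

lemma bounds {s : ℕ} (y : Fin s → ℝ) (X : ℕ) (E : ℝ) (hE : 0 < E) (hX : s.factorial + 1 ≤ X)
    (hy1 : ∀ i, 1 ≤ y i) (hyE : ∀ i, y i ≤ (X : ℝ) ^ E) :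
    (∀ i, |(co s i : ℝ)| ≤ (X : ℝ) ^ (2 * E + 1)) ∧ ∀ i, |(ct y i : ℝ)| ≤ (X : ℝ) ^ (2 * E + 1) := by
  have hX1 : (s.factorial : ℝ) + 1 ≤ X := by exact_mod_cast hX
  have hf : (0 : ℝ) ≤ s.factorial := by positivity
  have e : (X : ℝ) ^ (2 * E + 1) = ((X : ℝ) ^ E) ^ 2 * X := by
    rw [Real.rpow_add (by linarith), Real.rpow_one, two_mul, Real.rpow_add (by linarith), sq]
  constructor
  · intro i
    unfold co
    simpa using Real.one_le_rpow (by linarith : (1 : ℝ) ≤ X) (by linarith : (0 : ℝ) ≤ 2 * E + 1)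
  · intro i
    unfold ct
    push_cast
    rw [abs_of_nonneg (by positivity), e]
    refine (M_le s (y i)).trans ?_
    have h1 : (1 : ℝ) ≤ (X : ℝ) ^ E := Real.one_le_rpow (by linarith) hE.le
    have h2 : y i ^ 2 ≤ ((X : ℝ) ^ E) ^ 2 := pow_le_pow_left₀ (by linarith [hy1 i]) (hyE i) 2
    have h3 : (1 : ℝ) ≤ ((X : ℝ) ^ E) ^ 2 := one_le_pow₀ h1
    nlinarith [mul_le_mul h3 hX1 (by linarith) (by linarith), mul_nonneg (by linarith : (0:ℝ) ≤ ((X : ℝ) ^ E) ^ 2 - 1) hf]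

/-- **The laws of the almost primes near `s` arbitrary points on the scale of the square roots.** -/
theorem result (s : ℕ) (hs : 2 ≤ s) (E η θ : ℝ) (hE : 0 < E) (hη : 0 < η) (hθ : 0 < θ) :
    (∀ (l₀ : ℕ) (x₀ ε : ℝ), 0 < ε → ∃ r₀ : ℕ, ∀ r : ℕ, r₀ ≤ r → ∃ X₀ : ℕ, ∀ X : ℕ, X₀ ≤ X →
      ∀ y : Fin s → ℝ, (∀ i, 1 ≤ y i ∧ y i ≤ (X : ℝ) ^ E) → (∀ i j, i ≠ j → (X : ℝ) ^ η ≤ |y i ^ 2 - y j ^ 2|) →
        (∀ i, ∀ m : ℕ, y i ≤ Real.sqrt ((M s (y i) + m : ℕ) : ℝ) ∧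
          Real.sqrt ((M s (y i) + m : ℕ) : ℝ) ≤ y i + (m + s.factorial) / (2 * y i)) ∧
        ∀ Z Y : ℕ, (X : ℝ) ^ θ ≤ Y →
          PoissonLaw (co s) (ct y) r X Z Y x₀ ε ∧ GapLaw (co s) (ct y) r X Z Y l₀ x₀ ε) ∧
    ∃ r₀ : ℕ, ∀ r : ℕ, r₀ ≤ r → ∀ ε : ℝ, 0 < ε → ∃ c : ℝ, 0 < c ∧ ∀ δ : ℝ, 0 < δ → ∃ B X₀ : ℕ,
      ∀ X : ℕ, X₀ ≤ X →
      ∀ y : Fin s → ℝ, (∀ i, 1 ≤ y i ∧ y i ≤ (X : ℝ) ^ E) → (∀ i j, i ≠ j → (X : ℝ) ^ η ≤ |y i ^ 2 - y j ^ 2|) →
        ∀ u Y : ℕ, (X : ℝ) ^ θ ≤ Y → Y ≤ X → Y ≤ u →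
        ∀ A : Set ℕ, (∀ m ∈ A, Good (co s) (ct y) r X m) →
          (N (Irregular A (V (co s) (ct y) r X) c δ B Y) u (u + Y) : ℝ) ≤
            ε * (Y * V (co s) (ct y) r X) := by
  have hbig : ∀ᶠ X : ℕ in Filter.atTop, (X : ℝ) ^ (η / 2) + s.factorial < (X : ℝ) ^ η := by
    have h1 : Filter.Tendsto (fun X : ℕ => (X : ℝ) ^ (η / 2)) Filter.atTop Filter.atTop :=
      (tendsto_rpow_atTop (by linarith)).comp tendsto_natCast_atTop_atTop
    filter_upwards [h1.eventually_ge_atTop ((s.factorial : ℝ) + 2), Filter.eventually_ge_atTop 1] with X hX hX1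
    have hX0 : (0 : ℝ) < X := by exact_mod_cast hX1
    have e : (X : ℝ) ^ η = (X : ℝ) ^ (η / 2) * (X : ℝ) ^ (η / 2) := by
      rw [← Real.rpow_add hX0]
      congr 1
      ring
    rw [e]
    have hf : (0 : ℝ) ≤ s.factorial := by positivity
    nlinarith
  constructor
  · intro l₀ x₀ ε hε
    obtain ⟨r₀, _, h⟩ := Pool.Agent.Q25.UReg.lin_laws2 s (2 * E + 1) (η / 2) θ (by linarith) (by linarith) hθ l₀ x₀ ε hε
    refine ⟨r₀, fun r hr => ?_⟩
    obtain ⟨X₀, hX₀⟩ := Filter.eventually_atTop.1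
      (((h r hr).and (Filter.eventually_ge_atTop (s.factorial + 1))).and hbig)
    refine ⟨X₀, fun X hX y hy hyy => ⟨fun i m => sqrt_near s m (y i) (hy i).1, fun Z Y hY => ?_⟩⟩
    obtain ⟨⟨h1, h2⟩, h3⟩ := hX₀ X hX
    have hb := bounds y X E hE h2 (fun i => (hy i).1) (fun i => (hy i).2)
    have h0 : (0 : ℝ) ≤ (X : ℝ) ^ (η / 2) := by positivity
    exact h1 (co s) (ct y) (fun _ => one_ne_zero) hb.1 hb.2 (adm y) (two hs y (by linarith) hyy)
      (noTr y h3 hyy) Z Y hY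
  · obtain ⟨r₀, _, h⟩ := Pool.Agent.Q25.UReg.lin_reg2 s (2 * E + 1) θ (by linarith) hθ
    refine ⟨r₀, fun r hr ε hε => ?_⟩
    obtain ⟨c, hc, h1⟩ := h r hr ε hε
    refine ⟨c, hc, fun δ hδ => ?_⟩
    obtain ⟨B, hB⟩ := h1 δ hδ
    obtain ⟨X₀, hX₀⟩ := Filter.eventually_atTop.1 ((hB.and (Filter.eventually_ge_atTop (s.factorial + 1))).and hbig)
    refine ⟨B, X₀, fun X hX y hy hyy u Y hXY hYX hYu A hA => ?_⟩
    obtain ⟨⟨h1, h2⟩, h3⟩ := hX₀ X hX
    have hb := bounds y X E hE h2 (fun i => (hy i).1) (fun i => (hy i).2)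
    have h0 : (0 : ℝ) ≤ (X : ℝ) ^ (η / 2) := by positivity
    exact h1 (co s) (ct y) (fun _ => one_ne_zero) hb.1 hb.2 (adm y) (two hs y (by linarith) hyy) u Y hXY hYX hYu A hA

end Pool.Agent.Results.MP_3998cf_nt.UniformLaws
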